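import Mathlib
import Pool.Agent.Run7.h372.LRi

set_option autoImplicit false

/-!
# The Lang–Rohrlich conjecture in the form of Q1 is false, for almost all moduli `q`

`F_q` is generated by `π` and the numbers `Γ(a / q)` with `1 ≤ a < q` and `gcd(a, q) = 1`. The distribution relation of the
Gamma function involves numerators that are not prime to `q`, but combinations of these relations involve only the
numerators prime to `q`. The smallest `q` for which there is one that does not come from the reflection formula is `14`: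
`Γ(1/14) Γ(9/14) Γ(11/14) = 4 π ^ (3 / 2)`. So the `φ(14) / 2 = 3` numbers `Γ(1/14), Γ(3/14), Γ(5/14)` and `π` are
algebraically dependent, and the transcendence degree of `F_14` is at most `3`, not `1 + 3`.

In general let `l` be a prime divisor of `q`, let `m` be the greatest divisor of `q` prime to `l` and let `K_l` be the group of
the residues modulo `q`, prime to `q`, that are congruent to a power of `l` modulo `m`. Then for all `g` prime to `q` the
product of the `Γ({g k / q})`, `k` in `K_l`, is algebraic over `ℚ(π)`. With the reflection formula this gives the bound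
`1 + ρ(q)` for the transcendence degree, where `ρ(q)` is the number of the odd Dirichlet characters `χ` modulo `q` such that
the primitive character of `χ` is different from `1` at all prime divisors of `q`; and `ρ(q) < φ(q) / 2` if and only if there
is a prime divisor `l` of `q` such that `-1` is not congruent to a power of `l` modulo `m`. This is so for almost all `q`.

Proof. Let `V` be the rational vector space of the classes of the non-zero complex numbers, with the multiplication, modulo the
numbers that are algebraic over `ℚ(π)`. The relations show that the Fourier coefficients (in `ℂ ⊗ V`) of the function which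
maps `a` to the class of `Γ(a / q)` vanish at all the other characters; so the classes of the `Γ(a / q)` span a space of
dimension at most `ρ(q)`, and all of them are algebraic over `π` and `ρ(q)` of them.
-/

namespace Pool.Agent.Results.MP_274814_nt.Disproof

noncomputable section

open Filter Topology

/-- The field `F_q` of the problem, generated by `π` and the `Γ(a / q)` with `1 ≤ a ≤ q - 1` and `gcd(a, q) = 1`. -/
def F (q : ℕ) : IntermediateField ℚ ℂ :=
  IntermediateField.adjoin ℚ ({(Real.pi : ℂ)} ∪
    {z : ℂ | ∃ a : ℕ, 1 ≤ a ∧ a ≤ q - 1 ∧ Nat.gcd a q = 1 ∧ z = Complex.Gamma ((a : ℂ) / q)})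

/-- The number of the odd Dirichlet characters modulo `q` such that the primitive character that induces them is different
from `1` at all prime divisors of `q`. -/
def rho (q : ℕ) : ℕ :=
  Nat.card {χ : DirichletCharacter ℂ q // χ (-1) = -1 ∧
    ∀ l : ℕ, l.Prime → l ∣ q → χ.primitiveCharacter (l : ZMod χ.conductor) ≠ 1}

/-- **Q1 is false.** (1) It is not true that the transcendence degree of `F_q` is at least `1 + φ(q) / 2` for all `q > 2`.
(2) The inequality fails for all multiples `q` of `14`.
(3) If `q` has a divisor `d > 2` and a prime divisor `l ≡ 1` modulo `d`, then the transcendence degree of `F_q` is at most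
`1 + φ(q) / 2 - φ(d) / 2`.
(4) For every `C`, the transcendence degree of `F_q` is at most `1 + φ(q) / 2 - C` for all `q` outside a set of natural
density zero.
(5) For all `q > 2` the transcendence degree of `F_q` is at most `1 + ρ(q)`.
(6) `ρ(q) < φ(q) / 2` if and only if there is a prime divisor `l` of `q` such that no power of `l` is congruent to `-1` modulo
the greatest divisor of `q` that is prime to `l`. -/
theorem result :
    (¬ ∀ q : ℕ, 2 < q → ((1 + q.totient / 2 : ℕ) : Cardinal) ≤ Algebra.trdeg ℚ (F q)) ∧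
    (∀ n : ℕ, 0 < n → Algebra.trdeg ℚ (F (14 * n)) ≤ (((14 * n).totient / 2 : ℕ) : Cardinal)) ∧
    (∀ q d l : ℕ, 0 < q → 2 < d → l.Prime → l ≡ 1 [MOD d] → d ∣ q → l ∣ q →
      Algebra.trdeg ℚ (F q) + ((d.totient / 2 : ℕ) : Cardinal) ≤ ((1 + q.totient / 2 : ℕ) : Cardinal)) ∧
    (∀ C : ℕ, Tendsto (fun N : ℕ => (({q : ℕ | 2 < q ∧ q ≤ N ∧
      ¬ Algebra.trdeg ℚ (F q) + (C : Cardinal) ≤ ((1 + q.totient / 2 : ℕ) : Cardinal)}.ncard : ℕ) : ℝ) / N)
        atTop (𝓝 0)) ∧
    (∀ q : ℕ, 2 < q → Algebra.trdeg ℚ (F q) ≤ ((1 + rho q : ℕ) : Cardinal)) ∧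
    (∀ q : ℕ, 2 < q → (rho q < q.totient / 2 ↔
      ∃ l : ℕ, l.Prime ∧ l ∣ q ∧ ∀ k : ℕ, ¬ (q / l ^ q.factorization l) ∣ l ^ k + 1)) := by
  have h5 : ∀ q : ℕ, 2 < q → Algebra.trdeg ℚ (F q) ≤ ((1 + rho q : ℕ) : Cardinal) := by
    intro q hq
    have : NeZero q := ⟨by omega⟩
    exact Run7.h372.LR.trdeg_Fq_le hq
  have heven : ∀ q : ℕ, 2 < q → ∃ t : ℕ, q.totient = 2 * t := by
    intro q hq
    have : NeZero q := ⟨by omega⟩
    classical
    exact ⟨_, (Run7.h372.LR.card_odd hq).symm⟩
  have h6 : ∀ q : ℕ, 2 < q → (rho q < q.totient / 2 ↔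
      ∃ l : ℕ, l.Prime ∧ l ∣ q ∧ ∀ k : ℕ, ¬ (q / l ^ q.factorization l) ∣ l ^ k + 1) := by
    intro q hq
    have : NeZero q := ⟨by omega⟩
    have h1 := Run7.h372.LR.rho_lt_iff (q := q) hq
    obtain ⟨t, ht⟩ := heven q hq
    have h2 : rho q < q.totient / 2 ↔ 2 * Run7.h372.LR.rho q < q.totient := by
      have : rho q = Run7.h372.LR.rho q := rfl
      omega
    rw [h2, h1]
    refine exists_congr fun l => and_congr_right fun _ => and_congr_right fun _ => ?_
    unfold Run7.h372.LR.Neg
    push Not
    rfl
  have h2 : ∀ n : ℕ, 0 < n →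
      Algebra.trdeg ℚ (F (14 * n)) ≤ (((14 * n).totient / 2 : ℕ) : Cardinal) := by
    intro n hn
    have hq : 2 < 14 * n := by omega
    have hlt : rho (14 * n) < (14 * n).totient / 2 := by
      rw [h6 _ hq]
      refine ⟨2, Nat.prime_two, by omega, fun k hk => ?_⟩
      have h7 : 7 ∣ 14 * n / 2 ^ (14 * n).factorization 2 :=
        Nat.dvd_ordCompl_of_dvd_not_dvd (by omega) (by norm_num)
      have h8 : 7 ∣ 2 ^ k + 1 := h7.trans hk
      have h9 : ∀ k : ℕ, 2 ^ k % 7 = 1 ∨ 2 ^ k % 7 = 2 ∨ 2 ^ k % 7 = 4 := by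
        intro k
        induction k with
        | zero => left; rfl
        | succ k ih =>
          rw [pow_succ]
          omega
      have := h9 k
      omega
    refine (h5 _ hq).trans ?_
    rw [Nat.cast_le]
    omega
  refine ⟨?_, h2, ?_, ?_, h5, h6⟩
  · intro h
    have h7 := h 14 (by norm_num)
    have h8 := h7.trans (h2 1 one_pos)
    rw [mul_one, Nat.cast_le] at h8
    omega
  · intro q d l hq hd hl hld hdq hlq
    have : NeZero q := ⟨by omega⟩
    have hd0 : NeZero d := ⟨by omega⟩
    have hq2 : 2 < q := lt_of_lt_of_le hd (Nat.le_of_dvd hq hdq)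
    have h7 := Run7.h372.LR.rho_add_le (q := q) hd hl hld hdq hlq
    have h8 : rho q = Run7.h372.LR.rho q := rfl
    calc Algebra.trdeg ℚ (F q) + ((d.totient / 2 : ℕ) : Cardinal)
        ≤ ((1 + rho q : ℕ) : Cardinal) + ((d.totient / 2 : ℕ) : Cardinal) := by
          gcongr
          exact h5 q hq2
      _ = ((1 + rho q + d.totient / 2 : ℕ) : Cardinal) := by push_cast; rfl
      _ ≤ ((1 + q.totient / 2 : ℕ) : Cardinal) := by
        rw [Nat.cast_le]
        omega
  · intro C
    rw [Metric.tendsto_atTop]
    intro ε hε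
    obtain ⟨N₀, hN₀⟩ := Run7.h372.LR.thin_defect C (ε / 2) (half_pos hε)
    refine ⟨max N₀ 1, fun N hN => ?_⟩
    have hN1 : 1 ≤ N := le_trans (le_max_right _ _) hN
    have hN2 := hN₀ N (le_trans (le_max_left _ _) hN)
    have hset : {q : ℕ | 2 < q ∧ q ≤ N ∧
        ¬ Algebra.trdeg ℚ (F q) + (C : Cardinal) ≤ ((1 + q.totient / 2 : ℕ) : Cardinal)} =
        {q : ℕ | 2 < q ∧ ¬ Algebra.trdeg ℚ (Run7.h372.LR.Fq q) + C ≤
          ((1 + q.totient / 2 : ℕ) : Cardinal)} ∩ Set.Icc 1 N := by
      ext q
      constructor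
      · rintro ⟨h1, h3, h4⟩
        exact ⟨⟨h1, h4⟩, by omega, h3⟩
      · rintro ⟨⟨h1, h4⟩, h3⟩
        exact ⟨h1, h3.2, h4⟩
    rw [hset, Real.dist_eq, sub_zero, abs_of_nonneg (by positivity)]
    have hNpos : (0 : ℝ) < N := by exact_mod_cast hN1
    rw [div_lt_iff₀ hNpos]
    calc _ ≤ ε / 2 * N := hN2
      _ < ε * N := by nlinarith

end

end Pool.Agent.Results.MP_274814_nt.Disproof
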